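import Pool.Agent.Y316.DS.Cone

namespace Pool.Agent.Y316.DS

theorem det_u_neg (u v : ℝ × ℝ) : det u (-v) = det v u := by
  simp [det]; ring

theorem cone_sum (e : Fin 8 × Fin 3 → ℝ × ℝ) (hsum : ∀ s, e s + e (nxt s) + e (prv s) = 0)
    (hpos : ∀ s, 0 < det (e s) (e (nxt s)))
    (hglue : ∀ s, ∃ c : ℝ, 0 < c ∧ e (tstd s) = -(c • e s)) (u : ℝ × ℝ) (hu : u ≠ 0) :
    ∑ i : Fin 3, (ind e u (0, i) + ind e u (fA i, 0) + ind e u (fB i, 2) +
        ind e u (fA i, 1)) = 2 := by
  classical
  have hD : ∀ i : Fin 3, ind e u (0, i) =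
      if 0 ≤ det (e (0, i)) u ∧ 0 < det (e (0, i + 2)) u then 1 else 0 := by
    intro i
    unfold ind
    rw [det_u_neg]
    rfl
  have hC : ∀ i : Fin 3, ind e u (fA i, 0) + ind e u (fB i, 2) + ind e u (fA i, 1) =
      if det (e (0, i)) u < 0 ∨ (det (e (0, i)) u = 0 ∧ 0 < det (e (0, i + 1)) u) then 1
        else 0 := by
    intro i
    obtain ⟨c0, hc0, g0⟩ := hglue (0, i)
    obtain ⟨k1, hk1, g1⟩ := hglue (fA i, 1)
    obtain ⟨k2, hk2, g2⟩ := hglue (fA i, 2)
    rw [tstd_D] at g0
    rw [tstd_A1] at g1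
    rw [tstd_A2] at g2
    have sA := hsum (fA i, 0)
    change _ + e (fA i, 1) + e (fA i, 2) = 0 at sA
    have pA := hpos (fA i, 0)
    change 0 < det _ (e (fA i, 1)) at pA
    have pD := hpos (0, i)
    change 0 < det _ (e (0, i + 1)) at pD
    have i1 : ind e u (fA i, 0) =
        if 0 ≤ det (e (fA i, 0)) u ∧ 0 < det (e (fA i, 2)) u then 1 else 0 := by
      unfold ind; rw [det_u_neg]; rfl
    have i3 : ind e u (fA i, 1) =
        if 0 ≤ det (e (fA i, 1)) u ∧ 0 < det (e (fA i, 0)) u then 1 else 0 := by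
      unfold ind; rw [det_u_neg]; rfl
    have i2 : ind e u (fB i, 2) =
        if det (e (fA i, 2)) u ≤ 0 ∧ det (e (fA i, 1)) u < 0 then 1 else 0 := by
      unfold ind
      rw [det_u_neg]
      change (if 0 ≤ det (e (fB i, 2)) u ∧ 0 < det (e (fB i, 1)) u then 1 else 0) = _
      rw [g1, g2, det_neg_left, det_neg_left, det_smul_left, det_smul_left]
      congr 1
      apply propext
      constructor
      · rintro ⟨q1, q2⟩
        constructor
        · by_contra k
          push Not at k
          have := mul_pos hk2 k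
          linarith
        · by_contra k
          push Not at k
          have := mul_nonneg hk1.le k
          linarith
      · rintro ⟨q1, q2⟩
        constructor
        · have := mul_nonpos_of_nonneg_of_nonpos hk2.le q1
          linarith
        · have := mul_neg_of_pos_of_neg hk1 q2
          linarith
    have s1 : (e (fA i, 0)).1 + (e (fA i, 1)).1 + (e (fA i, 2)).1 = 0 := by
      have := congrArg Prod.fst sA; simpa using this
    have s2 : (e (fA i, 0)).2 + (e (fA i, 1)).2 + (e (fA i, 2)).2 = 0 := by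
      have := congrArg Prod.snd sA; simpa using this
    rw [i1, i2, i3]
    apply cyl_arith
    · simp only [det]
      linear_combination u.2 * s1 - u.1 * s2
    · rw [g0, det_neg_left, det_smul_left]
      constructor
      · intro k
        have := mul_neg_of_pos_of_neg hc0 k
        linarith
      · intro k
        by_contra k'
        push Not at k'
        have := mul_nonneg hc0.le k'
        linarith
    · rw [g0, det_neg_left, det_smul_left]
      constructor
      · intro k; rw [k]; simp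
      · intro k
        have : c0 * det (e (0, i)) u = 0 := by linarith
        rcases mul_eq_zero.1 this with h | h
        · exact absurd h hc0.ne'
        · exact h
    · intro k
      have n1 : 0 < -det (e (0, i)) (e (fA i, 1)) := by
        rw [g0, det_neg_left, det_smul_left] at pA
        by_contra k'
        push Not at k'
        have : 0 ≤ det (e (0, i)) (e (fA i, 1)) := by linarith
        have := mul_nonneg hc0.le this
        linarith
      have plu : det (e (0, i)) (e (fA i, 1)) * det (e (0, i + 1)) u =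
          det (e (0, i)) (e (0, i + 1)) * det (e (fA i, 1)) u -
            det (e (0, i)) u * det (e (fA i, 1)) (e (0, i + 1)) := by
        simp only [det]; ring
      rw [k, zero_mul, sub_zero] at plu
      constructor
      · intro q
        by_contra q'
        push Not at q'
        have a1 := mul_pos n1 q
        have a2 := mul_nonneg pD.le q'
        linarith
      · intro q
        by_contra q'
        push Not at q'
        have a1 := mul_pos pD (neg_pos.2 q)
        have a2 := mul_nonneg n1.le (neg_nonneg.2 q')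
        nlinarith
  have hs : det (e (0, 0)) u + det (e (0, 1)) u + det (e (0, 2)) u = 0 := by
    have h0 := hsum (0, 0)
    change e (0, 0) + e (0, 1) + e (0, 2) = 0 at h0
    rw [← det_add_left, ← det_add_left, h0]
    simp [det]
  have hz : ¬ (det (e (0, 0)) u = 0 ∧ det (e (0, 1)) u = 0) := by
    rintro ⟨h1, h2⟩
    have h3 := hpos (0, 0)
    change 0 < det (e (0, 0)) (e (0, 1)) at h3
    apply hu
    simp only [det] at h1 h2 h3
    have e1 : ((e (0, 0)).1 * (e (0, 1)).2 - (e (0, 0)).2 * (e (0, 1)).1) * u.1 = 0 := by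
      linear_combination (e (0, 1)).1 * h1 - (e (0, 0)).1 * h2
    have e2 : ((e (0, 0)).1 * (e (0, 1)).2 - (e (0, 0)).2 * (e (0, 1)).1) * u.2 = 0 := by
      linear_combination (e (0, 1)).2 * h1 - (e (0, 0)).2 * h2
    have u1 : u.1 = 0 := (mul_eq_zero.1 e1).resolve_left h3.ne'
    have u2 : u.2 = 0 := (mul_eq_zero.1 e2).resolve_left h3.ne'
    exact Prod.ext u1 u2
  have key := tri_arith _ _ _ hs hz
  have e1 := hC 0
  have e2 := hC 1
  have e3 := hC 2
  have d1 := hD 0
  have d2 := hD 1
  have d3 := hD 2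
  rw [show (0 : Fin 3) + 1 = 1 from rfl] at e1
  rw [show (1 : Fin 3) + 1 = 2 from rfl] at e2
  rw [show (2 : Fin 3) + 1 = 0 from rfl] at e3
  rw [show (0 : Fin 3) + 2 = 2 from rfl] at d1
  rw [show (1 : Fin 3) + 2 = 0 from rfl] at d2
  rw [show (2 : Fin 3) + 2 = 1 from rfl] at d3
  rw [Fin.sum_univ_three]
  omega

/-- The symmetry of the standard pattern exchanging the two vertices. -/
def sw (s : Fin 8 × Fin 3) : Fin 8 × Fin 3 := (![1, 0, 5, 6, 7, 2, 3, 4] s.1, s.2)

theorem sw_t : ∀ s, sw (tstd s) = tstd (sw s) := by decide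
theorem sw_n (s : Fin 8 × Fin 3) : sw (nxt s) = nxt (sw s) := rfl
theorem sw_p (s : Fin 8 × Fin 3) : sw (prv s) = prv (sw s) := rfl
theorem sw_D : ∀ i : Fin 3, sw (0, i) = (1, i) := by decide
theorem sw_A : ∀ i j : Fin 3, sw (fA i, j) = (fB i, j) := by decide
theorem sw_B : ∀ i j : Fin 3, sw (fB i, j) = (fA i, j) := by decide

theorem cone_sum' (e : Fin 8 × Fin 3 → ℝ × ℝ) (hsum : ∀ s, e s + e (nxt s) + e (prv s) = 0)
    (hpos : ∀ s, 0 < det (e s) (e (nxt s)))
    (hglue : ∀ s, ∃ c : ℝ, 0 < c ∧ e (tstd s) = -(c • e s)) (u : ℝ × ℝ) (hu : u ≠ 0) :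
    ∑ i : Fin 3, (ind e u (1, i) + ind e u (fB i, 0) + ind e u (fA i, 2) +
        ind e u (fB i, 1)) = 2 := by
  have h := cone_sum (fun s => e (sw s)) (fun s => hsum (sw s)) (fun s => hpos (sw s))
    (fun s => by
      obtain ⟨c, hc, h⟩ := hglue (sw s)
      exact ⟨c, hc, by rw [sw_t]; exact h⟩) u hu
  have hi : ∀ r, ind (fun s => e (sw s)) u r = ind e u (sw r) := fun r => rfl
  simp only [hi, sw_D, sw_A, sw_B] at h
  exact h

theorem angle_std (e : Fin 8 × Fin 3 → ℝ × ℝ) (hsum : ∀ s, e s + e (nxt s) + e (prv s) = 0)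
    (hpos : ∀ s, 0 < det (e s) (e (nxt s)))
    (hglue : ∀ s, ∃ c : ℝ, 0 < c ∧ e (tstd s) = -(c • e s)) (s : Fin 8 × Fin 3) (u : ℝ × ℝ)
    (hu : u ≠ 0) :
    {r | r ∈ vert tstd s ∧ 0 ≤ det (e r) u ∧ 0 < det u (-(e (prv r)))}.ncard = 2 := by
  have h1 : {r | r ∈ vert tstd s ∧ 0 ≤ det (e r) u ∧ 0 < det u (-(e (prv r)))} =
      {r | vtx r = vtx s ∧ 0 ≤ det (e r) u ∧ 0 < det u (-(e (prv r)))} := by
    rw [vert_std]; rfl
  rw [h1]
  have : vtx s = 0 ∨ vtx s = 1 := by
    generalize vtx s = v; revert v; decide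
  rcases this with h | h
  · rw [h, ncard_zero]; exact cone_sum e hsum hpos hglue u hu
  · rw [h, ncard_one]; exact cone_sum' e hsum hpos hglue u hu

end Pool.Agent.Y316.DS
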