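import Pool.Agent.Y316.DS.Move

namespace Pool.Agent.Y316.DS

theorem cyl_arith (P Q R p p' : ℝ) (hsum : P + Q + R = 0) (h1 : p < 0 ↔ 0 < P)
    (h2 : p = 0 ↔ P = 0) (h3 : p = 0 → (0 < p' ↔ Q < 0)) :
    (if 0 ≤ P ∧ 0 < R then 1 else 0) + (if R ≤ 0 ∧ Q < 0 then 1 else 0) +
      (if 0 ≤ Q ∧ 0 < P then 1 else 0) = if p < 0 ∨ (p = 0 ∧ 0 < p') then 1 else 0 := by
  rcases lt_trichotomy P 0 with hP | hP | hP
  · have n1 : ¬ (0 ≤ P ∧ 0 < R) := fun k => by linarith [k.1]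
    have n2 : ¬ (R ≤ 0 ∧ Q < 0) := fun k => by linarith [k.1, k.2]
    have n3 : ¬ (0 ≤ Q ∧ 0 < P) := fun k => by linarith [k.1, k.2]
    have n4 : ¬ (p < 0 ∨ (p = 0 ∧ 0 < p')) := by
      rintro (k | k)
      · linarith [h1.1 k]
      · linarith [h2.1 k.1]
    rw [if_neg n1, if_neg n2, if_neg n3, if_neg n4]
  · have hp := h2.2 hP
    have h3' := h3 hp
    have n3 : ¬ (0 ≤ Q ∧ 0 < P) := fun k => by linarith [k.1, k.2]
    rw [if_neg n3]
    by_cases hQ : Q < 0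
    · have n1 : 0 ≤ P ∧ 0 < R := ⟨hP.ge, by linarith⟩
      have n2 : ¬ (R ≤ 0 ∧ Q < 0) := fun k => by linarith [k.1, k.2]
      rw [if_pos n1, if_neg n2, if_pos (Or.inr ⟨hp, h3'.2 hQ⟩)]
    · have n1 : ¬ (0 ≤ P ∧ 0 < R) := fun k => by linarith [k.2]
      have n2 : ¬ (R ≤ 0 ∧ Q < 0) := fun k => hQ k.2
      have n4 : ¬ (p < 0 ∨ (p = 0 ∧ 0 < p')) := by
        rintro (k | k)
        · linarith [h1.1 k]
        · exact hQ (h3'.1 k.2)
      rw [if_neg n1, if_neg n2, if_neg n4]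
  · have hp : p < 0 := h1.2 hP
    rw [if_pos (Or.inl hp : p < 0 ∨ (p = 0 ∧ 0 < p'))]
    by_cases hQ : Q < 0
    · have n3 : ¬ (0 ≤ Q ∧ 0 < P) := fun k => by linarith [k.1]
      rw [if_neg n3]
      by_cases hR : 0 < R
      · have n2 : ¬ (R ≤ 0 ∧ Q < 0) := fun k => by linarith [k.1]
        rw [if_pos ⟨hP.le, hR⟩, if_neg n2]
      · have n1 : ¬ (0 ≤ P ∧ 0 < R) := fun k => hR k.2
        rw [if_neg n1, if_pos ⟨not_lt.1 hR, hQ⟩]
    · have n1 : ¬ (0 ≤ P ∧ 0 < R) := fun k => by linarith [k.2]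
      have n2 : ¬ (R ≤ 0 ∧ Q < 0) := fun k => hQ k.2
      rw [if_neg n1, if_neg n2, if_pos ⟨not_lt.1 hQ, hP⟩]

theorem tri_arith (p q r : ℝ) (hs : p + q + r = 0) (h0 : ¬ (p = 0 ∧ q = 0)) :
    (if 0 ≤ p ∧ 0 < r then 1 else 0) + (if 0 ≤ q ∧ 0 < p then 1 else 0) +
      (if 0 ≤ r ∧ 0 < q then 1 else 0) +
    ((if p < 0 ∨ (p = 0 ∧ 0 < q) then 1 else 0) + (if q < 0 ∨ (q = 0 ∧ 0 < r) then 1 else 0) +
      (if r < 0 ∨ (r = 0 ∧ 0 < p) then 1 else 0)) = 2 := by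
  rcases lt_trichotomy p 0 with hp | hp | hp <;> rcases lt_trichotomy q 0 with hq | hq | hq <;>
    rcases lt_trichotomy r 0 with hr | hr | hr <;>
    first
    | (exfalso; linarith)
    | (exfalso; exact h0 ⟨hp, hq⟩)
    | (simp [hp, hq, hr, hp.le, hq.le, hr.le, hp.not_ge, hp.not_gt, hq.not_ge, hq.not_gt,
        hr.not_ge, hr.not_gt, hp.ne, hq.ne, hr.ne, hp.ne', hq.ne', hr.ne'])
    | (simp_all [not_le, le_of_lt, ne_of_gt, ne_of_lt, lt_asymm])

/-- The vertex of the standard pattern at the start of a side. -/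
def vtx (s : Fin 8 × Fin 3) : Fin 2 :=
  ![![0, 0, 0], ![1, 1, 1], ![0, 0, 1], ![0, 0, 1], ![0, 0, 1], ![1, 1, 0], ![1, 1, 0],
    ![1, 1, 0]] s.1 s.2

/-- The place of a corner in the cyclic order around its vertex. -/
def plc (s : Fin 8 × Fin 3) : ℕ :=
  ![![0, 8, 4], ![0, 8, 4], ![9, 11, 10], ![5, 7, 6], ![1, 3, 2], ![9, 11, 10], ![5, 7, 6],
    ![1, 3, 2]] s.1 s.2

theorem vtx_rot : ∀ s, vtx (tstd (prv s)) = vtx s := by decide

theorem vert_aux : ∀ s r, vtx r = vtx s →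
    (fun q => tstd (prv q))^[(plc r + 12 - plc s) % 12] s = r := by
  decide +kernel

theorem vert_std (s : Fin 8 × Fin 3) : vert tstd s = {r | vtx r = vtx s} := by
  ext r
  constructor
  · rintro ⟨n, rfl⟩
    show vtx _ = vtx s
    induction n with
    | zero => rfl
    | succ n ih => rw [Function.iterate_succ_apply', vtx_rot, ih]
  · intro h
    exact ⟨_, vert_aux s r h⟩

theorem two_std : (Set.range (vert tstd)).ncard = 2 := by
  have h : Set.range (vert tstd) = {{r | vtx r = 0}, {r | vtx r = 1}} := by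
    ext S
    constructor
    · rintro ⟨s, rfl⟩
      rw [vert_std]
      have : vtx s = 0 ∨ vtx s = 1 := by
        generalize vtx s = v; revert v; decide
      rcases this with h | h
      · rw [h]; left; rfl
      · rw [h]; right; rfl
    · rintro (rfl | rfl)
      · exact ⟨(0, 0), by rw [vert_std]; rfl⟩
      · exact ⟨(1, 0), by rw [vert_std]; rfl⟩
  rw [h]
  apply Set.ncard_pair
  intro k
  have : (0, 0) ∈ {r : Fin 8 × Fin 3 | vtx r = 0} := by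
    show vtx (0, 0) = 0
    decide
  rw [k] at this
  revert this
  show ¬ (vtx (0, 0) = 1)
  decide

/-- Indicator function of the direction `u` lying in the corner `r`. -/
noncomputable def ind (e : Fin 8 × Fin 3 → ℝ × ℝ) (u : ℝ × ℝ) (r : Fin 8 × Fin 3) : ℕ :=
  by classical exact if 0 ≤ det (e r) u ∧ 0 < det u (-(e (prv r))) then 1 else 0

theorem ncard_eq (e : Fin 8 × Fin 3 → ℝ × ℝ) (u : ℝ × ℝ) (b : Fin 2) :
    {r | vtx r = b ∧ 0 ≤ det (e r) u ∧ 0 < det u (-(e (prv r)))}.ncard =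
      ∑ f : Fin 8, ∑ j : Fin 3, if vtx (f, j) = b then ind e u (f, j) else 0 := by
  classical
  have : {r | vtx r = b ∧ 0 ≤ det (e r) u ∧ 0 < det u (-(e (prv r)))} =
      ((Finset.univ.filter (fun r : Fin 8 × Fin 3 => vtx r = b ∧ 0 ≤ det (e r) u ∧
        0 < det u (-(e (prv r)))) : Finset (Fin 8 × Fin 3)) : Set (Fin 8 × Fin 3)) := by
    ext r; simp
  rw [this, Set.ncard_coe_finset, Finset.card_filter, Fintype.sum_prod_type]
  refine Finset.sum_congr rfl fun f _ => Finset.sum_congr rfl fun j _ => ?_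
  unfold ind
  by_cases h : vtx (f, j) = b
  · simp [h]
  · simp [h]

theorem ncard_zero (e : Fin 8 × Fin 3 → ℝ × ℝ) (u : ℝ × ℝ) :
    {r | vtx r = 0 ∧ 0 ≤ det (e r) u ∧ 0 < det u (-(e (prv r)))}.ncard =
      ∑ i : Fin 3, (ind e u (0, i) + ind e u (fA i, 0) + ind e u (fB i, 2) +
        ind e u (fA i, 1)) := by
  rw [ncard_eq]
  simp only [Fin.sum_univ_eight, Fin.sum_univ_three]
  simp [vtx, fA, fB]
  ring

theorem ncard_one (e : Fin 8 × Fin 3 → ℝ × ℝ) (u : ℝ × ℝ) :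
    {r | vtx r = 1 ∧ 0 ≤ det (e r) u ∧ 0 < det u (-(e (prv r)))}.ncard =
      ∑ i : Fin 3, (ind e u (1, i) + ind e u (fB i, 0) + ind e u (fA i, 2) +
        ind e u (fB i, 1)) := by
  rw [ncard_eq]
  simp only [Fin.sum_univ_eight, Fin.sum_univ_three]
  simp [vtx, fA, fB]
  ring

end Pool.Agent.Y316.DS
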