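import Mathlib

/-!
# Triangulable dilation surfaces of genus two with two cone points of angle `4π`

A triangulated dilation surface is given by eight oriented triangles of the plane, with sides
`(f, i)`, `f : Fin 8`, `i : Fin 3`, numbered counterclockwise, a pairing `τ` of the 24 sides and
the side vectors `e : Fin 8 × Fin 3 → ℝ × ℝ`.  The side `s` is glued with `τ s` by a map
`z ↦ a z + b`, `a > 0`.
-/

namespace Pool.Agent.Y316.DS

/-- The determinant of two vectors of the plane. -/
def det (u v : ℝ × ℝ) : ℝ := u.1 * v.2 - u.2 * v.1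

/-- The side following `s` in the counterclockwise boundary of its triangle. -/
def nxt (s : Fin 8 × Fin 3) : Fin 8 × Fin 3 := (s.1, s.2 + 1)

/-- The side preceding `s` in the counterclockwise boundary of its triangle. -/
def prv (s : Fin 8 × Fin 3) : Fin 8 × Fin 3 := (s.1, s.2 + 2)

/-- The corner at the start of the side `s` is the sector going counterclockwise from the ray of
`e s` to the ray of `-e (prv s)`.  The next corner in counterclockwise order at the same vertex of
the glued surface is the corner at the start of `τ (prv s)`.  `vert τ s` is the vertex of the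
surface at the start of `s`, written as the set of its corners. -/
def vert (τ : Fin 8 × Fin 3 → Fin 8 × Fin 3) (s : Fin 8 × Fin 3) : Set (Fin 8 × Fin 3) :=
  {r | ∃ n : ℕ, (fun q => τ (prv q))^[n] s = r}

/-- The pairing `τ` and the side vectors `e` describe a triangulated dilation surface that is
connected, has genus two (8 triangles, 12 edges, 2 vertices) and has exactly two cone points, the
vertices, both of angle `4π`. -/
structure IsTri (τ : Fin 8 × Fin 3 → Fin 8 × Fin 3) (e : Fin 8 × Fin 3 → ℝ × ℝ) : Prop where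
  /-- the sides are glued in pairs -/
  invol : ∀ s, τ (τ s) = s
  ne : ∀ s, τ s ≠ s
  /-- every triangle closes up and is positively oriented -/
  closed : ∀ f : Fin 8, e (f, 0) + e (f, 1) + e (f, 2) = 0
  pos : ∀ f : Fin 8, 0 < det (e (f, 0)) (e (f, 1))
  /-- glued sides are antiparallel: the gluing maps are `z ↦ a z + b` with `a > 0` -/
  glue : ∀ s, ∃ c : ℝ, 0 < c ∧ e (τ s) = -(c • e s)
  /-- the surface is connected -/
  conn : ∀ F : Set (Fin 8), F.Nonempty → (∀ s, s.1 ∈ F → (τ s).1 ∈ F) → F = Set.univ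
  /-- there are exactly two vertices -/
  two : (Set.range (vert τ)).ncard = 2
  /-- the structure closes up around every vertex (trivial dilation holonomy): the corners can be
  rescaled, by `h s > 0`, so that consecutive corners match along their common edge -/
  hol : ∃ h : Fin 8 × Fin 3 → ℝ, (∀ s, 0 < h s) ∧
    ∀ s, h (τ (prv s)) • e (τ (prv s)) = -(h s • e (prv s))
  /-- every cone angle is `4π`: every direction lies in exactly two corners of each vertex -/
  angle : ∀ s (u : ℝ × ℝ), u ≠ 0 →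
    {r | r ∈ vert τ s ∧ 0 ≤ det (e r) u ∧ 0 < det u (-(e (prv r)))}.ncard = 2

/-- The space of triangulated dilation surfaces (the pairings carry the discrete topology, the
side vectors the usual one). -/
abbrev TriSurf : Type :=
  {x : (Fin 8 × Fin 3 → Fin 8 × Fin 3) × (Fin 8 × Fin 3 → ℝ × ℝ) // IsTri x.1 x.2}

/-- `y` is obtained from `x` by renaming the triangles and their sides and by rescaling every
triangle. -/
def Iso (x y : (Fin 8 × Fin 3 → Fin 8 × Fin 3) × (Fin 8 × Fin 3 → ℝ × ℝ)) : Prop :=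
  ∃ (ρ : Equiv.Perm (Fin 8 × Fin 3)) (c : Fin 8 → ℝ), (∀ f, 0 < c f) ∧
    (∀ s, ρ (nxt s) = nxt (ρ s)) ∧ (∀ s, y.1 (ρ s) = ρ (x.1 s)) ∧
    ∀ s, y.2 (ρ s) = c s.1 • x.2 s

/-- `y` is obtained from `x` by a flip: the edge of the sides `s` and `x.1 s` (of the same length)
is replaced by the other diagonal of the quadrilateral formed by its two triangles.  The outer
sides of the quadrilateral are, counterclockwise, `nxt s`, `prv s`, `nxt (x.1 s)`, `prv (x.1 s)`;
the triangle of `s` now has the sides `s` (the new diagonal), the old `prv s` and the old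
`nxt (x.1 s)`, and the triangle of `x.1 s` has the sides `x.1 s` (the new diagonal), the old
`prv (x.1 s)` and the old `nxt s`. `σ` records the new positions of the sides. -/
def Flip (x y : (Fin 8 × Fin 3 → Fin 8 × Fin 3) × (Fin 8 × Fin 3 → ℝ × ℝ)) : Prop :=
  ∃ (s : Fin 8 × Fin 3) (σ : Equiv.Perm (Fin 8 × Fin 3)),
    x.2 (x.1 s) = -x.2 s ∧
    σ s = s ∧ σ (prv s) = nxt s ∧ σ (nxt (x.1 s)) = prv s ∧
    σ (x.1 s) = x.1 s ∧ σ (prv (x.1 s)) = nxt (x.1 s) ∧ σ (nxt s) = prv (x.1 s) ∧
    (∀ r, r.1 ≠ s.1 → r.1 ≠ (x.1 s).1 → σ r = r) ∧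
    (∀ r, y.1 (σ r) = σ (x.1 r)) ∧
    (∀ r, r ≠ s → r ≠ x.1 s → y.2 (σ r) = x.2 r) ∧
    y.2 s = x.2 (nxt s) + x.2 (prv (x.1 s)) ∧
    y.2 (x.1 s) = -(x.2 (nxt s) + x.2 (prv (x.1 s)))

/-- The triangulable locus of the stratum: triangulated surfaces up to renaming, rescaling of the
triangles and flips, with the quotient topology. -/
def T : Type := Quot (fun x y : TriSurf => Iso x.1 y.1 ∨ Flip x.1 y.1)

instance : TopologicalSpace T :=
  inferInstanceAs (TopologicalSpace (Quot (fun x y : TriSurf => Iso x.1 y.1 ∨ Flip x.1 y.1)))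

/-- The linear action of `SL(2, ℝ)` on the plane. -/
def lin (A : Matrix.SpecialLinearGroup (Fin 2) ℝ) (v : ℝ × ℝ) : ℝ × ℝ :=
  (A.1 0 0 * v.1 + A.1 0 1 * v.2, A.1 1 0 * v.1 + A.1 1 1 * v.2)

theorem det_lin (A : Matrix.SpecialLinearGroup (Fin 2) ℝ) (u v : ℝ × ℝ) :
    det (lin A u) (lin A v) = det u v := by
  have h := A.2
  rw [Matrix.det_fin_two] at h
  simp only [det, lin]
  linear_combination (u.1 * v.2 - u.2 * v.1) * h

theorem lin_add (A : Matrix.SpecialLinearGroup (Fin 2) ℝ) (u v : ℝ × ℝ) :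
    lin A (u + v) = lin A u + lin A v := by
  simp only [lin, Prod.fst_add, Prod.snd_add, Prod.mk_add_mk, Prod.mk.injEq]
  constructor <;> ring

theorem lin_neg (A : Matrix.SpecialLinearGroup (Fin 2) ℝ) (u : ℝ × ℝ) :
    lin A (-u) = -lin A u := by
  simp only [lin, Prod.fst_neg, Prod.snd_neg, Prod.neg_mk, Prod.mk.injEq]
  constructor <;> ring

theorem lin_smul (A : Matrix.SpecialLinearGroup (Fin 2) ℝ) (c : ℝ) (u : ℝ × ℝ) :
    lin A (c • u) = c • lin A u := by
  simp only [lin, Prod.smul_fst, Prod.smul_snd, smul_eq_mul, Prod.smul_mk, Prod.mk.injEq]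
  constructor <;> ring

theorem lin_zero (A : Matrix.SpecialLinearGroup (Fin 2) ℝ) : lin A 0 = 0 := by
  simp [lin]

theorem lin_inv (A : Matrix.SpecialLinearGroup (Fin 2) ℝ) (u : ℝ × ℝ) :
    ∃ v, lin A v = u := by
  refine ⟨(A.1 1 1 * u.1 - A.1 0 1 * u.2, - A.1 1 0 * u.1 + A.1 0 0 * u.2), ?_⟩
  have h := A.2
  rw [Matrix.det_fin_two] at h
  apply Prod.ext
  · simp only [lin]; linear_combination u.1 * h
  · simp only [lin]; linear_combination u.2 * h

theorem isTri_lin (A : Matrix.SpecialLinearGroup (Fin 2) ℝ)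
    {τ : Fin 8 × Fin 3 → Fin 8 × Fin 3} {e : Fin 8 × Fin 3 → ℝ × ℝ} (h : IsTri τ e) :
    IsTri τ (fun s => lin A (e s)) where
  invol := h.invol
  ne := h.ne
  closed := fun f => by rw [← lin_add, ← lin_add, h.closed, lin_zero]
  pos := fun f => by rw [det_lin]; exact h.pos f
  glue := fun s => by
    obtain ⟨c, hc, hs⟩ := h.glue s
    exact ⟨c, hc, by simp only [hs, lin_neg, lin_smul]⟩
  conn := h.conn
  two := h.two
  hol := by
    obtain ⟨k, hk, hs⟩ := h.hol
    refine ⟨k, hk, fun s => ?_⟩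
    rw [← lin_smul, hs, lin_neg, lin_smul]
  angle := fun s u hu => by
    obtain ⟨v, rfl⟩ := lin_inv A u
    have hv : v ≠ 0 := by rintro rfl; exact hu (lin_zero A)
    have := h.angle s v hv
    simpa only [← lin_neg, det_lin] using this

/-- The action of `SL(2, ℝ)` on triangulated surfaces. -/
def actS (A : Matrix.SpecialLinearGroup (Fin 2) ℝ) (x : TriSurf) : TriSurf :=
  ⟨(x.1.1, fun s => lin A (x.1.2 s)), isTri_lin A x.2⟩

theorem rel_act (A : Matrix.SpecialLinearGroup (Fin 2) ℝ) (x y : TriSurf)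
    (h : Iso x.1 y.1 ∨ Flip x.1 y.1) :
    Iso (actS A x).1 (actS A y).1 ∨ Flip (actS A x).1 (actS A y).1 := by
  rcases h with ⟨ρ, c, hc, h1, h2, h3⟩ | ⟨s, σ, h1, h2, h3, h4, h5, h6, h7, h8, h9, h10, h11, h12⟩
  · left
    refine ⟨ρ, c, hc, h1, h2, fun s => ?_⟩
    show lin A (y.1.2 (ρ s)) = c s.1 • lin A (x.1.2 s)
    rw [h3, lin_smul]
  · right
    refine ⟨s, σ, ?_, h2, h3, h4, h5, h6, h7, h8, h9, fun r hr hr' => ?_, ?_, ?_⟩
    · show lin A (x.1.2 (x.1.1 s)) = -lin A (x.1.2 s)
      rw [h1, lin_neg]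
    · show lin A (y.1.2 (σ r)) = lin A (x.1.2 r)
      rw [h10 r hr hr']
    · show lin A (y.1.2 s) = lin A (x.1.2 (nxt s)) + lin A (x.1.2 (prv (x.1.1 s)))
      rw [h11, lin_add]
    · show lin A (y.1.2 (x.1.1 s)) = -(lin A (x.1.2 (nxt s)) + lin A (x.1.2 (prv (x.1.1 s))))
      rw [h12, lin_neg, lin_add]

/-- The action of `SL(2, ℝ)` on the triangulable locus. -/
def act (A : Matrix.SpecialLinearGroup (Fin 2) ℝ) : T → T :=
  Quot.map (actS A) (rel_act A)

end Pool.Agent.Y316.DS
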