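import Pool.Agent.Y316.DS.Angle

namespace Pool.Agent.Y316.DS

/-- The family of examples. -/
def ex (t : ℝ) (s : Fin 8 × Fin 3) : ℝ × ℝ :=
  ![![(1, 0), (0, 1), (-1, -1)],
    ![(16, t), (-1, 8), (-15, -8 - t)],
    ![(-1, 0), (-33, -(2 * t)), (34, 2 * t)],
    ![(0, -1), (2, -17), (-2, 18)],
    ![(3, 3), (-19, -12 - t), (16, 9 + t)],
    ![(-16, -t), (33, 2 * t), (-17, -t)],
    ![(1, -8), (-2, 17), (1, -9)],
    ![(45, 24 + 3 * t), (19, 12 + t), (-64, -36 - 4 * t)]] s.1 s.2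

/-- The gluing ratios. -/
noncomputable def exc (s : Fin 8 × Fin 3) : ℝ :=
  ![![1, 1, 3], ![1, 1, 3], ![1, 1, 1 / 2], ![1, 1, 1 / 2], ![1 / 3, 1, 4], ![1, 1, 2],
    ![1, 1, 2], ![1 / 3, 1, 1 / 4]] s.1 s.2

/-- The scales around the vertices. -/
noncomputable def exh (s : Fin 8 × Fin 3) : ℝ :=
  ![![12, 6, 3], ![3, 6, 12], ![6, 12, 3], ![3, 6, 6], ![4, 1, 4], ![6, 3, 12],
    ![12, 6, 6], ![1, 4, 1]] s.1 s.2

theorem exc_pos (s : Fin 8 × Fin 3) : 0 < exc s := by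
  obtain ⟨f, j⟩ := s
  fin_cases f <;> fin_cases j <;> norm_num [exc]

theorem exh_pos (s : Fin 8 × Fin 3) : 0 < exh s := by
  obtain ⟨f, j⟩ := s
  fin_cases f <;> fin_cases j <;> norm_num [exh]

theorem ex_glue (t : ℝ) (s : Fin 8 × Fin 3) : ex t (tstd s) = -(exc s • ex t s) := by
  obtain ⟨f, j⟩ := s
  fin_cases f <;> fin_cases j <;> simp [exc, ex, tstd] <;> (try constructor) <;> ring_nf

theorem ex_hol (t : ℝ) (s : Fin 8 × Fin 3) :
    exh (tstd (prv s)) • ex t (tstd (prv s)) = -(exh s • ex t (prv s)) := by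
  obtain ⟨f, j⟩ := s
  fin_cases f <;> fin_cases j <;> simp [exh, ex, tstd, prv] <;> (try constructor) <;> ring_nf

theorem ex_closed (t : ℝ) (f : Fin 8) : ex t (f, 0) + ex t (f, 1) + ex t (f, 2) = 0 := by
  fin_cases f <;> simp [ex] <;> (try constructor) <;> ring_nf

theorem ex_pos (t : ℝ) (h0 : 0 < t) (h7 : t < 7) (f : Fin 8) :
    0 < det (ex t (f, 0)) (ex t (f, 1)) := by
  fin_cases f <;> simp [ex, det] <;> linarith

theorem sum_of_closed {e : Fin 8 × Fin 3 → ℝ × ℝ}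
    (h : ∀ f : Fin 8, e (f, 0) + e (f, 1) + e (f, 2) = 0) (s : Fin 8 × Fin 3) :
    e s + e (nxt s) + e (prv s) = 0 := by
  obtain ⟨f, i⟩ := s
  have h0 := h f
  fin_cases i
  · simpa [nxt, prv] using h0
  · have : e (f, 1) + e (f, 2) + e (f, 0) = 0 := by rw [← h0]; abel
    simpa [nxt, prv] using this
  · have : e (f, 2) + e (f, 0) + e (f, 1) = 0 := by rw [← h0]; abel
    simpa [nxt, prv] using this

theorem dpos_of_pos {e : Fin 8 × Fin 3 → ℝ × ℝ}
    (h : ∀ f : Fin 8, e (f, 0) + e (f, 1) + e (f, 2) = 0)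
    (hp : ∀ f : Fin 8, 0 < det (e (f, 0)) (e (f, 1))) (s : Fin 8 × Fin 3) :
    0 < det (e s) (e (nxt s)) := by
  obtain ⟨f, i⟩ := s
  have h0 := h f
  have hp := hp f
  have h1 : (e (f, 0)).1 + (e (f, 1)).1 + (e (f, 2)).1 = 0 := by
    have := congrArg Prod.fst h0; simpa using this
  have h2 : (e (f, 0)).2 + (e (f, 1)).2 + (e (f, 2)).2 = 0 := by
    have := congrArg Prod.snd h0; simpa using this
  have k1 : (e (f, 2)).1 = -(e (f, 0)).1 - (e (f, 1)).1 := by linarith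
  have k2 : (e (f, 2)).2 = -(e (f, 0)).2 - (e (f, 1)).2 := by linarith
  unfold det at hp
  fin_cases i
  · exact hp
  · show 0 < det (e (f, 1)) (e (f, 2))
    unfold det; rw [k1, k2]; nlinarith [hp]
  · show 0 < det (e (f, 2)) (e (f, 0))
    unfold det; rw [k1, k2]; nlinarith [hp]

theorem conn_std (F : Set (Fin 8)) (hF : F.Nonempty) (h : ∀ s, s.1 ∈ F → (tstd s).1 ∈ F) :
    F = Set.univ := by
  have hBA : ∀ i, fB i ∈ F → fA i ∈ F := fun i hi => by
    have := h (fB i, 1) hi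
    rwa [tstd_B1] at this
  have hAB : ∀ i, fA i ∈ F → fB i ∈ F := fun i hi => by
    have := h (fA i, 1) hi
    rwa [tstd_A1] at this
  have hA0 : ∀ i, fA i ∈ F → (0 : Fin 8) ∈ F := fun i hi => by
    have := h (fA i, 0) hi
    rwa [tstd_A0] at this
  have h0A : ∀ i, (0 : Fin 8) ∈ F → fA i ∈ F := fun i hi => by
    have := h (0, i) hi
    rwa [tstd_D] at this
  have hB1 : ∀ i, fB i ∈ F → (1 : Fin 8) ∈ F := fun i hi => by
    have := h (fB i, 0) hi
    rwa [tstd_B0] at this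
  have h1B : ∀ i, (1 : Fin 8) ∈ F → fB i ∈ F := fun i hi => by
    have := h (1, i) hi
    rwa [tstd_D'] at this
  have hcases : ∀ f : Fin 8, f = 0 ∨ f = 1 ∨ (∃ i, f = fA i) ∨ ∃ i, f = fB i := by decide
  have z : (0 : Fin 8) ∈ F := by
    obtain ⟨f, hf⟩ := hF
    rcases hcases f with rfl | rfl | ⟨i, rfl⟩ | ⟨i, rfl⟩
    · exact hf
    · exact hA0 0 (hBA 0 (h1B 0 hf))
    · exact hA0 i hf
    · exact hA0 i (hBA i hf)
  ext f
  simp only [Set.mem_univ, iff_true]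
  rcases hcases f with rfl | rfl | ⟨i, rfl⟩ | ⟨i, rfl⟩
  · exact z
  · exact hB1 0 (hAB 0 (h0A 0 z))
  · exact h0A i z
  · exact hAB i (h0A i z)

theorem ex_isTri (t : ℝ) (h0 : 0 < t) (h7 : t < 7) : IsTri tstd (ex t) where
  invol := tstd_invol
  ne := by decide
  closed := ex_closed t
  pos := ex_pos t h0 h7
  glue := fun s => ⟨exc s, exc_pos s, ex_glue t s⟩
  conn := conn_std
  two := two_std
  hol := ⟨exh, exh_pos, ex_hol t⟩
  angle := angle_std (ex t) (sum_of_closed (ex_closed t))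
    (dpos_of_pos (ex_closed t) (ex_pos t h0 h7)) (fun s => ⟨exc s, exc_pos s, ex_glue t s⟩)

/-- The family of examples as triangulated surfaces. -/
def exS (t : Set.Ioo (0 : ℝ) 7) : TriSurf := ⟨(tstd, ex t.1), ex_isTri t.1 t.2.1 t.2.2⟩

theorem continuous_exS : Continuous exS := by
  apply Continuous.subtype_mk
  apply Continuous.prodMk continuous_const
  apply continuous_pi
  rintro ⟨f, j⟩
  fin_cases f <;> fin_cases j <;> simp only [ex] <;> fun_prop

theorem ex_frame (t : Set.Ioo (0 : ℝ) 7) : Frame (exS t).1 (Equiv.refl _) where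
  n := fun _ => rfl
  t := fun _ => rfl
  X1 := fun i => by
    have h0 := t.2.1
    have h7 := t.2.2
    show 0 < det (ex t.1 (0, i)) (ex t.1 (1, i + 1))
    fin_cases i <;> simp [ex, det] <;> linarith
  X2 := fun i => by
    have h0 := t.2.1
    have h7 := t.2.2
    show 0 < det (ex t.1 (1, i)) (ex t.1 (0, i + 1))
    fin_cases i <;> simp [ex, det] <;> linarith

theorem ex_G (t : Set.Ioo (0 : ℝ) 7) : G (exS t).1 (Equiv.refl _) = t.1 / 128 := by
  show det (ex t.1 (0, 0)) (ex t.1 (1, 0)) * det (ex t.1 (0, 1)) (ex t.1 (1, 1)) /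
    (det (ex t.1 (0, 0)) (ex t.1 (1, 1)) * det (ex t.1 (1, 0)) (ex t.1 (0, 1))) = _
  simp [ex, det]
  ring

end Pool.Agent.Y316.DS
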