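import Pool.Agent.Y316.DS.Defs

namespace Pool.Agent.Y316.DS

theorem nxt_nxt (s : Fin 8 × Fin 3) : nxt (nxt s) = prv s := by
  obtain ⟨f, i⟩ := s; simp only [nxt, prv, Prod.mk.injEq, true_and]; revert i; decide
theorem nxt_prv (s : Fin 8 × Fin 3) : nxt (prv s) = s := by
  obtain ⟨f, i⟩ := s; simp only [nxt, prv, Prod.mk.injEq, true_and]; revert i; decide
theorem prv_nxt (s : Fin 8 × Fin 3) : prv (nxt s) = s := by
  obtain ⟨f, i⟩ := s; simp only [nxt, prv, Prod.mk.injEq, true_and]; revert i; decide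
theorem prv_prv (s : Fin 8 × Fin 3) : prv (prv s) = nxt s := by
  obtain ⟨f, i⟩ := s; simp only [nxt, prv, Prod.mk.injEq, true_and]; revert i; decide
theorem nxt_ne (s : Fin 8 × Fin 3) : nxt s ≠ s := by
  obtain ⟨f, i⟩ := s; simp only [nxt, ne_eq, Prod.mk.injEq, true_and]; revert i; decide
theorem prv_ne (s : Fin 8 × Fin 3) : prv s ≠ s := by
  obtain ⟨f, i⟩ := s; simp only [prv, ne_eq, Prod.mk.injEq, true_and]; revert i; decide
theorem nxt_ne_prv (s : Fin 8 × Fin 3) : nxt s ≠ prv s := by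
  obtain ⟨f, i⟩ := s; simp only [nxt, prv, ne_eq, Prod.mk.injEq, true_and]; revert i; decide
@[simp] theorem nxt_fst (s : Fin 8 × Fin 3) : (nxt s).1 = s.1 := rfl
@[simp] theorem prv_fst (s : Fin 8 × Fin 3) : (prv s).1 = s.1 := rfl

theorem same_tri {r s : Fin 8 × Fin 3} (h : r.1 = s.1) : r = s ∨ r = nxt s ∨ r = prv s := by
  obtain ⟨f, i⟩ := r
  obtain ⟨g, j⟩ := s
  simp only at h
  subst h
  simp only [nxt, prv, Prod.mk.injEq, true_and]
  revert i j; decide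

variable {x y : (Fin 8 × Fin 3 → Fin 8 × Fin 3) × (Fin 8 × Fin 3 → ℝ × ℝ)}

theorem IsTri.sum {τ : Fin 8 × Fin 3 → Fin 8 × Fin 3} {e : Fin 8 × Fin 3 → ℝ × ℝ}
    (h : IsTri τ e) (s : Fin 8 × Fin 3) : e s + e (nxt s) + e (prv s) = 0 := by
  obtain ⟨f, i⟩ := s
  have h0 := h.closed f
  fin_cases i
  · simpa [nxt, prv] using h0
  · have : e (f, 1) + e (f, 2) + e (f, 0) = 0 := by rw [← h0]; abel
    simpa [nxt, prv] using this
  · have : e (f, 2) + e (f, 0) + e (f, 1) = 0 := by rw [← h0]; abel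
    simpa [nxt, prv] using this

theorem IsTri.dpos {τ : Fin 8 × Fin 3 → Fin 8 × Fin 3} {e : Fin 8 × Fin 3 → ℝ × ℝ}
    (h : IsTri τ e) (s : Fin 8 × Fin 3) : 0 < det (e s) (e (nxt s)) := by
  obtain ⟨f, i⟩ := s
  have h0 := h.closed f
  have hp := h.pos f
  have h1 : (e (f, 0)).1 + (e (f, 1)).1 + (e (f, 2)).1 = 0 := by
    have := congrArg Prod.fst h0; simpa using this
  have h2 : (e (f, 0)).2 + (e (f, 1)).2 + (e (f, 2)).2 = 0 := by
    have := congrArg Prod.snd h0; simpa using this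
  have k1 : (e (f, 2)).1 = -(e (f, 0)).1 - (e (f, 1)).1 := by linarith
  have k2 : (e (f, 2)).2 = -(e (f, 0)).2 - (e (f, 1)).2 := by linarith
  unfold det at hp
  fin_cases i
  · exact hp
  · show 0 < det (e (f, 1)) (e (f, 2))
    unfold det; rw [k1, k2]; nlinarith [hp]
  · show 0 < det (e (f, 2)) (e (f, 0))
    unfold det; rw [k1, k2]; nlinarith [hp]

theorem det_neg_right (u v : ℝ × ℝ) : det u (-v) = -det u v := by
  simp [det]; ring
theorem det_neg_left (u v : ℝ × ℝ) : det (-u) v = -det u v := by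
  simp [det]; ring
theorem det_smul_right (c : ℝ) (u v : ℝ × ℝ) : det u (c • v) = c * det u v := by
  simp [det]; ring
theorem det_smul_left (c : ℝ) (u v : ℝ × ℝ) : det (c • u) v = c * det u v := by
  simp [det]; ring
theorem det_add_right (u v w : ℝ × ℝ) : det u (v + w) = det u v + det u w := by
  simp [det]; ring
theorem det_add_left (u v w : ℝ × ℝ) : det (u + v) w = det u w + det v w := by
  simp [det]; ring
theorem det_self (u : ℝ × ℝ) : det u u = 0 := by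
  simp [det]; ring
theorem det_comm (u v : ℝ × ℝ) : det u v = -det v u := by
  simp [det]; ring

theorem IsTri.ne_tri {τ : Fin 8 × Fin 3 → Fin 8 × Fin 3} {e : Fin 8 × Fin 3 → ℝ × ℝ}
    (h : IsTri τ e) (s : Fin 8 × Fin 3) : (τ s).1 ≠ s.1 := by
  intro hs
  obtain ⟨c, hc, hg⟩ := h.glue s
  rcases same_tri hs with h1 | h1 | h1
  · exact h.ne s h1
  · have := h.dpos s
    rw [← h1, hg, det_neg_right, det_smul_right, det_self] at this
    simp at this
  · have := h.dpos (prv s)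
    rw [nxt_prv, ← h1, hg, det_neg_left, det_smul_left, det_self] at this
    simp at this

/-- A flip, up to renaming. -/
structure FlipG (x y : (Fin 8 × Fin 3 → Fin 8 × Fin 3) × (Fin 8 × Fin 3 → ℝ × ℝ))
    (s s' : Fin 8 × Fin 3) (σ : Equiv.Perm (Fin 8 × Fin 3)) : Prop where
  a1 : σ s = s'
  b1 : σ (nxt s) = prv (y.1 s')
  b2 : σ (prv s) = nxt s'
  b3 : σ (nxt (x.1 s)) = prv s'
  b4 : σ (prv (x.1 s)) = nxt (y.1 s')
  c : ∀ r, r.1 ≠ s.1 → r.1 ≠ (x.1 s).1 → σ (nxt r) = nxt (σ r)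
  t : ∀ r, y.1 (σ r) = σ (x.1 r)
  e : ∀ r, r ≠ s → r ≠ x.1 s → y.2 (σ r) = x.2 r

theorem Flip.toG (h : Flip x y) :
    ∃ s s' σ, FlipG x y s s' σ := by
  obtain ⟨s, σ, h1, h2, h3, h4, h5, h6, h7, h8, h9, h10, h11, h12⟩ := h
  have hy : y.1 s = x.1 s := by
    have := h9 s
    rwa [h2, h5] at this
  refine ⟨s, s, σ, h2, ?_, h3, h4, ?_, fun r hr hr' => ?_, h9, h10⟩
  · rw [h7, hy]
  · rw [h6, hy]
  · rw [h8 r hr hr', h8 (nxt r) (by simpa using hr) (by simpa using hr')]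

theorem FlipG.swap {s s' : Fin 8 × Fin 3} {σ : Equiv.Perm (Fin 8 × Fin 3)}
    (hx : IsTri x.1 x.2) (hy : IsTri y.1 y.2) (h : FlipG x y s s' σ) :
    FlipG x y (x.1 s) (y.1 s') σ where
  a1 := by rw [← h.t, h.a1]
  b1 := by rw [h.b3, hy.invol]
  b2 := h.b4
  b3 := by rw [hx.invol, h.b1]
  b4 := by rw [hx.invol, hy.invol, h.b2]
  c := fun r hr hr' => h.c r (by rwa [hx.invol] at hr') hr
  t := h.t
  e := fun r hr hr' => h.e r (by rwa [hx.invol] at hr') hr

theorem FlipG.symm {s s' : Fin 8 × Fin 3} {σ : Equiv.Perm (Fin 8 × Fin 3)}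
    (hx : IsTri x.1 x.2) (hy : IsTri y.1 y.2) (h : FlipG x y s s' σ) :
    FlipG y x s' (x.1 s) ((Equiv.swap s' (y.1 s')).trans σ.symm) := by
  have hn : (y.1 s').1 ≠ s'.1 := hy.ne_tri s'
  have a2 : σ (x.1 s) = y.1 s' := by rw [← h.t, h.a1]
  have key : ∀ r, r ≠ s' → r ≠ y.1 s' →
      ((Equiv.swap s' (y.1 s')).trans σ.symm) r = σ.symm r := by
    intro r h1 h2
    rw [Equiv.trans_apply, Equiv.swap_apply_of_ne_of_ne h1 h2]
  have n1 : nxt s' ≠ s' := nxt_ne s'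
  have n2 : nxt s' ≠ y.1 s' := fun k => hn (by rw [← k]; rfl)
  have n3 : prv s' ≠ s' := prv_ne s'
  have n4 : prv s' ≠ y.1 s' := fun k => hn (by rw [← k]; rfl)
  have n5 : nxt (y.1 s') ≠ s' := fun k => hn (by rw [← nxt_fst, k])
  have n6 : nxt (y.1 s') ≠ y.1 s' := nxt_ne _
  have n7 : prv (y.1 s') ≠ s' := fun k => hn (by rw [← prv_fst, k])
  have n8 : prv (y.1 s') ≠ y.1 s' := prv_ne _
  refine ⟨?_, ?_, ?_, ?_, ?_, ?_, ?_, ?_⟩
  · rw [Equiv.trans_apply, Equiv.swap_apply_left, Equiv.symm_apply_eq, a2]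
  · rw [key _ n1 n2, Equiv.symm_apply_eq, hx.invol, h.b2]
  · rw [key _ n3 n4, Equiv.symm_apply_eq, h.b3]
  · rw [key _ n5 n6, Equiv.symm_apply_eq, h.b4]
  · rw [key _ n7 n8, Equiv.symm_apply_eq, hx.invol, h.b1]
  · intro r hr hr'
    have m1 : nxt r ≠ s' := fun k => hr (by rw [← k]; rfl)
    have m2 : nxt r ≠ y.1 s' := fun k => hr' (by rw [← k]; rfl)
    have m3 : r ≠ s' := fun k => hr (by rw [k])
    have m4 : r ≠ y.1 s' := fun k => hr' (by rw [k])
    rw [key _ m1 m2, key _ m3 m4, Equiv.symm_apply_eq]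
    have q1 : (σ.symm r).1 ≠ s.1 := by
      intro k
      rcases same_tri k with k | k | k
      · rw [Equiv.symm_apply_eq, h.a1] at k; exact m3 k
      · rw [Equiv.symm_apply_eq, h.b1] at k; exact hr' (by rw [k]; rfl)
      · rw [Equiv.symm_apply_eq, h.b2] at k; exact hr (by rw [k]; rfl)
    have q2 : (σ.symm r).1 ≠ (x.1 s).1 := by
      intro k
      rcases same_tri k with k | k | k
      · rw [Equiv.symm_apply_eq, a2] at k; exact m4 k
      · rw [Equiv.symm_apply_eq, h.b3] at k; exact hr (by rw [k]; rfl)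
      · rw [Equiv.symm_apply_eq, h.b4] at k; exact hr' (by rw [k]; rfl)
    rw [h.c _ q1 q2, Equiv.apply_symm_apply]
  · intro r
    have t' : ∀ q, x.1 (σ.symm q) = σ.symm (y.1 q) := by
      intro q
      rw [Equiv.eq_symm_apply, ← h.t, Equiv.apply_symm_apply]
    rw [Equiv.trans_apply, Equiv.trans_apply, t']
    congr 1
    by_cases k1 : r = s'
    · subst k1
      rw [Equiv.swap_apply_left, Equiv.swap_apply_right, hy.invol]
    · by_cases k2 : r = y.1 s'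
      · subst k2
        rw [Equiv.swap_apply_right, hy.invol, Equiv.swap_apply_left]
      · rw [Equiv.swap_apply_of_ne_of_ne k1 k2, Equiv.swap_apply_of_ne_of_ne]
        · intro k; apply k2; rw [← k, hy.invol]
        · intro k; apply k1; rw [← hy.invol r, k, hy.invol]
  · intro r h1 h2
    rw [key r h1 h2]
    have := h.e (σ.symm r) (fun k => h1 (by rw [Equiv.symm_apply_eq, h.a1] at k; exact k))
      (fun k => h2 (by rw [Equiv.symm_apply_eq, a2] at k; exact k))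
    rw [← this, Equiv.apply_symm_apply]

/-- The standard pairing: two triangles `0`, `1`, and for every `i` a cylinder formed by the
triangles `2 + i` and `5 + i`. -/
def tstd (s : Fin 8 × Fin 3) : Fin 8 × Fin 3 :=
  ![![(2, 0), (3, 0), (4, 0)], ![(5, 0), (6, 0), (7, 0)], ![(0, 0), (5, 1), (5, 2)],
    ![(0, 1), (6, 1), (6, 2)], ![(0, 2), (7, 1), (7, 2)], ![(1, 0), (2, 1), (2, 2)],
    ![(1, 1), (3, 1), (3, 2)], ![(1, 2), (4, 1), (4, 2)]] s.1 s.2

/-- The triangle of the cylinder `i` adjacent to the triangle `0`. -/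
def fA (i : Fin 3) : Fin 8 := ![2, 3, 4] i
/-- The triangle of the cylinder `i` adjacent to the triangle `1`. -/
def fB (i : Fin 3) : Fin 8 := ![5, 6, 7] i

theorem tstd_invol : ∀ s, tstd (tstd s) = s := by decide
theorem tstd_D : ∀ i, tstd (0, i) = (fA i, 0) := by decide
theorem tstd_D' : ∀ i, tstd (1, i) = (fB i, 0) := by decide
theorem tstd_A0 : ∀ i, tstd (fA i, 0) = (0, i) := by decide
theorem tstd_B0 : ∀ i, tstd (fB i, 0) = (1, i) := by decide
theorem tstd_A1 : ∀ i, tstd (fA i, 1) = (fB i, 1) := by decide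
theorem tstd_A2 : ∀ i, tstd (fA i, 2) = (fB i, 2) := by decide
theorem tstd_B1 : ∀ i, tstd (fB i, 1) = (fA i, 1) := by decide
theorem tstd_B2 : ∀ i, tstd (fB i, 2) = (fA i, 2) := by decide

theorem cases8 (s : Fin 8 × Fin 3) : ∃ i : Fin 3, s = (0, i) ∨ s = (1, i) ∨ s = (fA i, 0) ∨
    s = (fA i, 1) ∨ s = (fA i, 2) ∨ s = (fB i, 0) ∨ s = (fB i, 1) ∨ s = (fB i, 2) := by
  revert s; decide

/-- A labelling of the sides which identifies `x` with a surface of the standard shape. -/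
structure Frame (x : (Fin 8 × Fin 3 → Fin 8 × Fin 3) × (Fin 8 × Fin 3 → ℝ × ℝ))
    (φ : Equiv.Perm (Fin 8 × Fin 3)) : Prop where
  n : ∀ r, φ (nxt r) = nxt (φ r)
  t : ∀ r, x.1 (φ r) = φ (tstd r)
  X1 : ∀ i, 0 < det (x.2 (φ (0, i))) (x.2 (φ (1, i + 1)))
  X2 : ∀ i, 0 < det (x.2 (φ (1, i))) (x.2 (φ (0, i + 1)))

/-- The invariant. -/
noncomputable def G (x : (Fin 8 × Fin 3 → Fin 8 × Fin 3) × (Fin 8 × Fin 3 → ℝ × ℝ))
    (φ : Equiv.Perm (Fin 8 × Fin 3)) : ℝ :=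
  det (x.2 (φ (0, 0))) (x.2 (φ (1, 0))) * det (x.2 (φ (0, 1))) (x.2 (φ (1, 1))) /
    (det (x.2 (φ (0, 0))) (x.2 (φ (1, 1))) * det (x.2 (φ (1, 0))) (x.2 (φ (0, 1))))

theorem Frame.p {φ : Equiv.Perm (Fin 8 × Fin 3)} (h : Frame x φ) (r : Fin 8 × Fin 3) :
    φ (prv r) = prv (φ r) := by
  rw [← nxt_nxt, h.n, h.n, nxt_nxt]

theorem Frame.tri {φ : Equiv.Perm (Fin 8 × Fin 3)} (h : Frame x φ) {r s : Fin 8 × Fin 3} :
    (φ r).1 = (φ s).1 ↔ r.1 = s.1 := by
  constructor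
  · intro k
    rcases same_tri k with k | k | k
    · rw [φ.injective k]
    · rw [← h.n] at k; rw [φ.injective k]; rfl
    · rw [← h.p] at k; rw [φ.injective k]; rfl
  · intro k
    rcases same_tri k with k | k | k
    · rw [k]
    · rw [k, h.n]; rfl
    · rw [k, h.p]; rfl

theorem FlipG.d1 {s s' : Fin 8 × Fin 3} {σ : Equiv.Perm (Fin 8 × Fin 3)}
    (hx : IsTri x.1 x.2) (hy : IsTri y.1 y.2) (h : FlipG x y s s' σ) :
    0 < det (x.2 (prv s)) (x.2 (nxt (x.1 s))) := by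
  have hn := hx.ne_tri s
  have := hy.dpos (nxt s')
  rw [nxt_nxt, ← h.b2, ← h.b3, h.e _ (prv_ne s) (fun k => hn (by rw [← k]; rfl)),
    h.e _ (fun k => hn (by rw [← nxt_fst, k])) (nxt_ne _)] at this
  exact this

theorem FlipG.d2 {s s' : Fin 8 × Fin 3} {σ : Equiv.Perm (Fin 8 × Fin 3)}
    (hx : IsTri x.1 x.2) (hy : IsTri y.1 y.2) (h : FlipG x y s s' σ) :
    0 < det (x.2 (prv (x.1 s))) (x.2 (nxt s)) := by
  have := (h.swap hx hy).d1 hx hy
  rwa [hx.invol] at this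

theorem noflip_arith {p q r w k1 k2 : ℝ} (h1 : 0 < k1) (h2 : 0 < k2) (ha : 0 < p + q)
    (hb : k1 * p + k2 * q < 0) (hc : 0 < r + w) (hd : k1 * r + k2 * w < 0) (hp : 0 < p)
    (hw : 0 < w) : False := by
  have a := mul_pos h2 ha
  have b := mul_pos h1 hc
  have c : 0 < (k2 - k1) * p := by nlinarith
  have d : 0 < (k1 - k2) * w := by nlinarith
  have c' := pos_of_mul_pos_left c hp.le
  have d' := pos_of_mul_pos_left d hw.le
  linarith

end Pool.Agent.Y316.DS
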