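import Pool.Agent.Y316.DS.Ex

namespace Pool.Agent.Y316.DS

open Set

/-- The values of the invariant on the moduli space. -/
def GamT : T → Set ℝ :=
  Quot.lift (fun x : TriSurf => Gam x.1) (fun x y h => by
    rcases h with h | h
    · exact gam_iso h
    · exact gam_flip x.2 y.2 h)

theorem gamT_act (A : Matrix.SpecialLinearGroup (Fin 2) ℝ) (y : T) :
    GamT (act A y) = GamT y := by
  induction y using Quot.ind with
  | mk x => exact gam_act A x

theorem gamT_finite (y : T) : (GamT y).Finite := by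
  induction y using Quot.ind with
  | mk x => exact gam_finite x.1

theorem continuous_det {X : Type*} [TopologicalSpace X] {f g : X → ℝ × ℝ} (hf : Continuous f)
    (hg : Continuous g) : Continuous fun x => det (f x) (g x) := by
  unfold det
  fun_prop

theorem continuous_side (s : Fin 8 × Fin 3) : Continuous fun x : TriSurf => x.1.2 s :=
  (continuous_apply s).comp (continuous_snd.comp continuous_subtype_val)

theorem isOpen_frame (φ : Equiv.Perm (Fin 8 × Fin 3)) :
    IsOpen {x : TriSurf | Frame x.1 φ} := by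
  have h : {x : TriSurf | Frame x.1 φ} =
      (({x : TriSurf | ∀ r, φ (nxt r) = nxt (φ r)} ∩
        ⋂ r, {x : TriSurf | x.1.1 (φ r) = φ (tstd r)}) ∩
      (⋂ i : Fin 3, {x : TriSurf | 0 < det (x.1.2 (φ (0, i))) (x.1.2 (φ (1, i + 1)))})) ∩
      ⋂ i : Fin 3, {x : TriSurf | 0 < det (x.1.2 (φ (1, i))) (x.1.2 (φ (0, i + 1)))} := by
    ext x
    simp only [mem_inter_iff, mem_iInter, mem_ofPred_eq]
    constructor
    · rintro ⟨a, b, c, d⟩
      exact ⟨⟨⟨a, b⟩, c⟩, d⟩
    · rintro ⟨⟨⟨a, b⟩, c⟩, d⟩
      exact ⟨a, b, c, d⟩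
  rw [h]
  refine ((isOpen_const.inter (isOpen_iInter_of_finite fun r => ?_)).inter
    (isOpen_iInter_of_finite fun i => ?_)).inter (isOpen_iInter_of_finite fun i => ?_)
  · have hc : Continuous fun x : TriSurf => x.1.1 (φ r) :=
      (continuous_apply (φ r)).comp (continuous_fst.comp continuous_subtype_val)
    exact (isOpen_discrete {φ (tstd r)}).preimage hc
  · exact isOpen_lt continuous_const
      (continuous_det (continuous_side _) (continuous_side _))
  · exact isOpen_lt continuous_const
      (continuous_det (continuous_side _) (continuous_side _))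

theorem isOpen_frame_G (φ : Equiv.Perm (Fin 8 × Fin 3)) (V : Set ℝ) (hV : IsOpen V) :
    IsOpen {x : TriSurf | Frame x.1 φ ∧ G x.1 φ ∈ V} := by
  have hc : ContinuousOn (fun x : TriSurf => G x.1 φ) {x : TriSurf | Frame x.1 φ} := by
    apply ContinuousOn.div
    · exact ((continuous_det (continuous_side _) (continuous_side _)).mul
        (continuous_det (continuous_side _) (continuous_side _))).continuousOn
    · exact ((continuous_det (continuous_side _) (continuous_side _)).mul
        (continuous_det (continuous_side _) (continuous_side _))).continuousOn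
    · intro x hx
      exact mul_ne_zero (hx.X1 0).ne' (hx.X2 0).ne'
  exact hc.isOpen_inter_preimage (isOpen_frame φ) hV

theorem isClosed_gam (K : Set ℝ) (hK : IsClosed K) : IsClosed {z : T | GamT z ⊆ K} := by
  rw [← isOpen_compl_iff]
  have h : IsOpen ((Quot.mk _ : TriSurf → T) ⁻¹' {z : T | GamT z ⊆ K}ᶜ) := by
    have : (Quot.mk _ : TriSurf → T) ⁻¹' {z : T | GamT z ⊆ K}ᶜ =
        ⋃ φ : Equiv.Perm (Fin 8 × Fin 3), {x : TriSurf | Frame x.1 φ ∧ G x.1 φ ∈ Kᶜ} := by
      ext x
      simp only [mem_preimage, mem_compl_iff, mem_ofPred_eq, mem_iUnion]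
      change ¬ (Gam x.1 ⊆ K) ↔ _
      rw [Set.not_subset]
      constructor
      · rintro ⟨g, ⟨φ, hφ, rfl⟩, hg⟩
        exact ⟨φ, hφ, hg⟩
      · rintro ⟨φ, hφ, hg⟩
        exact ⟨_, ⟨φ, hφ, rfl⟩, hg⟩
    rw [this]
    exact isOpen_iUnion fun φ => isOpen_frame_G φ _ hK.isOpen_compl
  exact h

/-- The family of examples in the moduli space. -/
def exT (t : Ioo (0 : ℝ) 7) : T := Quot.mk _ (exS t)

theorem continuous_exT : Continuous exT :=
  continuous_quot_mk.comp continuous_exS

theorem mem_gamT (t : Ioo (0 : ℝ) 7) : t.1 / 128 ∈ GamT (exT t) :=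
  ⟨Equiv.refl _, ex_frame t, ex_G t⟩

theorem mem_component (t₀ t : Ioo (0 : ℝ) 7) : exT t ∈ connectedComponent (exT t₀) := by
  have : PreconnectedSpace (Ioo (0 : ℝ) 7) :=
    Subtype.preconnectedSpace isPreconnected_Ioo
  exact (isPreconnected_range continuous_exT).subset_connectedComponent ⟨t₀, rfl⟩ ⟨t, rfl⟩

/-- No `SL(2, ℝ)`-orbit is dense in the component of the examples. -/
theorem not_dense (t₀ : Ioo (0 : ℝ) 7) (y : T) :
    ¬ connectedComponent (exT t₀) ⊆
      closure (range fun A : Matrix.SpecialLinearGroup (Fin 2) ℝ => act A y) := by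
  intro h
  have h1 : closure (range fun A : Matrix.SpecialLinearGroup (Fin 2) ℝ => act A y) ⊆
      {z : T | GamT z ⊆ GamT y} := by
    apply closure_minimal _ (isClosed_gam _ (gamT_finite y).isClosed)
    rintro _ ⟨A, rfl⟩
    exact (gamT_act A y).subset
  have h2 : ∀ t : Ioo (0 : ℝ) 7, t.1 / 128 ∈ GamT y := fun t =>
    h1 (h (mem_component t₀ t)) (mem_gamT t)
  have h3 : (Ioo (0 : ℝ) 7).Finite := by
    have : (fun t : ℝ => t / 128) '' Ioo (0 : ℝ) 7 ⊆ GamT y := by
      rintro _ ⟨t, ht, rfl⟩
      exact h2 ⟨t, ht⟩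
    refine Finite.of_finite_image ((gamT_finite y).subset this) ?_
    intro a _ b _ hab
    have : a / 128 = b / 128 := hab
    linarith
  exact (Ioo_infinite (by norm_num : (0 : ℝ) < 7)) h3

end Pool.Agent.Y316.DS
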