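import Pool.Agent.Y316.DS.Frame

namespace Pool.Agent.Y316.DS

variable {x y : (Fin 8 × Fin 3 → Fin 8 × Fin 3) × (Fin 8 × Fin 3 → ℝ × ℝ)}

theorem two_one : ∀ i : Fin 3, i + 2 + 1 = i := by decide

theorem noflip_D {s s' : Fin 8 × Fin 3} {σ φ : Equiv.Perm (Fin 8 × Fin 3)}
    (hx : IsTri x.1 x.2) (hy : IsTri y.1 y.2) (h : FlipG x y s s' σ) (hφ : Frame x φ) (i : Fin 3)
    (hs : s = φ (0, i)) : False := by
  obtain ⟨c0, hc0, g0⟩ := hx.glue (φ (0, i))
  obtain ⟨k1, hk1, g1⟩ := hx.glue (φ (fA i, 1))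
  obtain ⟨k2, hk2, g2⟩ := hx.glue (φ (fA i, 2))
  obtain ⟨m, hm, g3⟩ := hx.glue (φ (1, i))
  rw [hφ.t, tstd_D] at g0
  rw [hφ.t, tstd_A1] at g1
  rw [hφ.t, tstd_A2] at g2
  rw [hφ.t, tstd_D'] at g3
  have sA := hx.sum (φ (fA i, 0))
  have sB := hx.sum (φ (fB i, 0))
  rw [← hφ.n, ← hφ.p] at sA sB
  change _ + x.2 (φ (fA i, 1)) + x.2 (φ (fA i, 2)) = 0 at sA
  change _ + x.2 (φ (fB i, 1)) + x.2 (φ (fB i, 2)) = 0 at sB
  have d1 := h.d1 hx hy
  have d2 := h.d2 hx hy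
  rw [hs, hφ.t, tstd_D, ← hφ.n, ← hφ.p] at d1 d2
  change 0 < det _ (x.2 (φ (fA i, 1))) at d1
  change 0 < det (x.2 (φ (fA i, 2))) _ at d2
  have t1 := hx.dpos (φ (0, i))
  rw [← hφ.n] at t1
  have t2 := hx.dpos (prv (φ (0, i)))
  rw [nxt_prv, ← hφ.p] at t2
  have x1 := hφ.X1 (i + 2)
  have x2 := hφ.X2 i
  rw [two_one i] at x1
  change 0 < det (x.2 (φ (prv (0, i)))) _ at x1
  change 0 < det _ (x.2 (φ (nxt (0, i)))) at x2
  generalize x.2 (φ (prv (0, i))) = P at *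
  generalize x.2 (φ (nxt (0, i))) = Q at *
  generalize x.2 (φ (0, i)) = E at *
  generalize x.2 (φ (1, i)) = E' at *
  generalize x.2 (φ (fA i, 0)) = a0 at *
  generalize x.2 (φ (fA i, 1)) = a1 at *
  generalize x.2 (φ (fA i, 2)) = a2 at *
  generalize x.2 (φ (fB i, 0)) = b0 at *
  generalize x.2 (φ (fB i, 1)) = b1 at *
  generalize x.2 (φ (fB i, 2)) = b2 at *
  subst g0 g1 g2 g3
  have e1 : a1 + a2 = c0 • E := by
    have : a1 + a2 = -(-(c0 • E)) := by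
      rw [eq_neg_iff_add_eq_zero, add_comm, ← add_assoc]; exact sA
    rw [this, neg_neg]
  have e2 : k1 • a1 + k2 • a2 = -(m • E') := by
    rw [eq_neg_iff_add_eq_zero]
    have := congrArg Neg.neg sB
    rw [neg_zero] at this
    rw [← this]; abel
  have f1 : det P a1 + det P a2 = c0 * det P E := by rw [← det_add_right, e1, det_smul_right]
  have f2 : k1 * det P a1 + k2 * det P a2 = -(m * det P E') := by
    rw [← det_smul_right, ← det_smul_right, ← det_add_right, e2, det_neg_right, det_smul_right]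
  have f3 : det a1 Q + det a2 Q = c0 * det E Q := by rw [← det_add_left, e1, det_smul_left]
  have f4 : k1 * det a1 Q + k2 * det a2 Q = -(m * det E' Q) := by
    rw [← det_smul_left, ← det_smul_left, ← det_add_left, e2, det_neg_left, det_smul_left]
  exact noflip_arith hk1 hk2 (by rw [f1]; positivity)
    (by rw [f2]; have := mul_pos hm x1; linarith) (by rw [f3]; positivity)
    (by rw [f4]; have := mul_pos hm x2; linarith) d1 d2

theorem noflip_D' {s s' : Fin 8 × Fin 3} {σ φ : Equiv.Perm (Fin 8 × Fin 3)}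
    (hx : IsTri x.1 x.2) (hy : IsTri y.1 y.2) (h : FlipG x y s s' σ) (hφ : Frame x φ) (i : Fin 3)
    (hs : s = φ (1, i)) : False := by
  obtain ⟨c0, hc0, g0⟩ := hx.glue (φ (1, i))
  obtain ⟨k1, hk1, g1⟩ := hx.glue (φ (fB i, 1))
  obtain ⟨k2, hk2, g2⟩ := hx.glue (φ (fB i, 2))
  obtain ⟨m, hm, g3⟩ := hx.glue (φ (0, i))
  rw [hφ.t, tstd_D'] at g0
  rw [hφ.t, tstd_B1] at g1
  rw [hφ.t, tstd_B2] at g2
  rw [hφ.t, tstd_D] at g3
  have sA := hx.sum (φ (fB i, 0))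
  have sB := hx.sum (φ (fA i, 0))
  rw [← hφ.n, ← hφ.p] at sA sB
  change _ + x.2 (φ (fB i, 1)) + x.2 (φ (fB i, 2)) = 0 at sA
  change _ + x.2 (φ (fA i, 1)) + x.2 (φ (fA i, 2)) = 0 at sB
  have d1 := h.d1 hx hy
  have d2 := h.d2 hx hy
  rw [hs, hφ.t, tstd_D', ← hφ.n, ← hφ.p] at d1 d2
  change 0 < det _ (x.2 (φ (fB i, 1))) at d1
  change 0 < det (x.2 (φ (fB i, 2))) _ at d2
  have t1 := hx.dpos (φ (1, i))
  rw [← hφ.n] at t1
  have t2 := hx.dpos (prv (φ (1, i)))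
  rw [nxt_prv, ← hφ.p] at t2
  have x1 := hφ.X2 (i + 2)
  have x2 := hφ.X1 i
  rw [two_one i] at x1
  change 0 < det (x.2 (φ (prv (1, i)))) _ at x1
  change 0 < det _ (x.2 (φ (nxt (1, i)))) at x2
  generalize x.2 (φ (prv (1, i))) = P at *
  generalize x.2 (φ (nxt (1, i))) = Q at *
  generalize x.2 (φ (1, i)) = E at *
  generalize x.2 (φ (0, i)) = E' at *
  generalize x.2 (φ (fB i, 0)) = a0 at *
  generalize x.2 (φ (fB i, 1)) = a1 at *
  generalize x.2 (φ (fB i, 2)) = a2 at *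
  generalize x.2 (φ (fA i, 0)) = b0 at *
  generalize x.2 (φ (fA i, 1)) = b1 at *
  generalize x.2 (φ (fA i, 2)) = b2 at *
  subst g0 g1 g2 g3
  have e1 : a1 + a2 = c0 • E := by
    have : a1 + a2 = -(-(c0 • E)) := by
      rw [eq_neg_iff_add_eq_zero, add_comm, ← add_assoc]; exact sA
    rw [this, neg_neg]
  have e2 : k1 • a1 + k2 • a2 = -(m • E') := by
    rw [eq_neg_iff_add_eq_zero]
    have := congrArg Neg.neg sB
    rw [neg_zero] at this
    rw [← this]; abel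
  have f1 : det P a1 + det P a2 = c0 * det P E := by rw [← det_add_right, e1, det_smul_right]
  have f2 : k1 * det P a1 + k2 * det P a2 = -(m * det P E') := by
    rw [← det_smul_right, ← det_smul_right, ← det_add_right, e2, det_neg_right, det_smul_right]
  have f3 : det a1 Q + det a2 Q = c0 * det E Q := by rw [← det_add_left, e1, det_smul_left]
  have f4 : k1 * det a1 Q + k2 * det a2 Q = -(m * det E' Q) := by
    rw [← det_smul_left, ← det_smul_left, ← det_add_left, e2, det_neg_left, det_smul_left]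
  exact noflip_arith hk1 hk2 (by rw [f1]; positivity)
    (by rw [f2]; have := mul_pos hm x1; linarith) (by rw [f3]; positivity)
    (by rw [f4]; have := mul_pos hm x2; linarith) d1 d2

/-- New labels after the flip of the side `(fA i, 1)`. -/
def w1 (i : Fin 3) : Equiv.Perm (Fin 8 × Fin 3) :=
  Equiv.swap (fA i, 1) (fB i, 2) * Equiv.swap (fB i, 2) (fB i, 1) *
    Equiv.swap (fB i, 1) (fA i, 2)

/-- New labels after the flip of the side `(fA i, 2)`. -/
def w2 (i : Fin 3) : Equiv.Perm (Fin 8 × Fin 3) :=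
  Equiv.swap (fA i, 1) (fB i, 2) * Equiv.swap (fA i, 2) (fB i, 1)

theorem w1_t : ∀ i r, w1 i (tstd r) = tstd (w1 i r) := by decide
theorem w2_t : ∀ i r, w2 i (tstd r) = tstd (w2 i r) := by decide
theorem w1_o : ∀ i r, r.1 ≠ fA i → r.1 ≠ fB i → w1 i r = r := by decide
theorem w2_o : ∀ i r, r.1 ≠ fA i → r.1 ≠ fB i → w2 i r = r := by decide
theorem w1_v : ∀ i, w1 i (fA i, 0) = (fA i, 0) ∧ w1 i (fA i, 1) = (fB i, 2) ∧
    w1 i (fA i, 2) = (fA i, 1) ∧ w1 i (fB i, 0) = (fB i, 0) ∧ w1 i (fB i, 1) = (fA i, 2) ∧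
    w1 i (fB i, 2) = (fB i, 1) := by decide
theorem w2_v : ∀ i, w2 i (fA i, 0) = (fA i, 0) ∧ w2 i (fA i, 1) = (fB i, 2) ∧
    w2 i (fA i, 2) = (fB i, 1) ∧ w2 i (fB i, 0) = (fB i, 0) ∧ w2 i (fB i, 1) = (fA i, 2) ∧
    w2 i (fB i, 2) = (fA i, 1) := by decide
theorem D_ne : ∀ i : Fin 3, (0 : Fin 8) ≠ fA i ∧ (0 : Fin 8) ≠ fB i ∧ (1 : Fin 8) ≠ fA i ∧
    (1 : Fin 8) ≠ fB i := by decide

theorem frame_of_w {s s' : Fin 8 × Fin 3} {σ φ ω : Equiv.Perm (Fin 8 × Fin 3)}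
    (h : FlipG x y s s' σ)
    (hφ : Frame x φ) (i : Fin 3) (hs : s.1 = (φ (fA i, 0)).1) (hs' : (x.1 s).1 = (φ (fB i, 0)).1)
    (ht : ∀ r, ω (tstd r) = tstd (ω r)) (ho : ∀ r, r.1 ≠ fA i → r.1 ≠ fB i → ω r = r)
    (hA : ∀ j, σ (φ (ω (nxt (fA i, j)))) = nxt (σ (φ (ω (fA i, j)))))
    (hB : ∀ j, σ (φ (ω (nxt (fB i, j)))) = nxt (σ (φ (ω (fB i, j))))) :
    Frame y ((ω.trans φ).trans σ) ∧ G y ((ω.trans φ).trans σ) = G x φ := by
  have eD : ∀ f : Fin 8, f ≠ fA i → f ≠ fB i → ∀ j,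
      y.2 (((ω.trans φ).trans σ) (f, j)) = x.2 (φ (f, j)) := by
    intro f h1 h2 j
    rw [Equiv.trans_apply, Equiv.trans_apply, ho _ h1 h2]
    apply h.e
    · intro k
      rw [← k, hφ.tri] at hs
      exact h1 hs
    · intro k
      rw [← k, hφ.tri] at hs'
      exact h2 hs'
  have e0 := eD 0 (D_ne i).1 (D_ne i).2.1
  have e1 := eD 1 (D_ne i).2.2.1 (D_ne i).2.2.2
  refine ⟨⟨?_, ?_, ?_, ?_⟩, ?_⟩
  · intro r
    simp only [Equiv.trans_apply]
    by_cases k1 : r.1 = fA i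
    · have := hA r.2
      rwa [show (fA i, r.2) = r from Prod.ext k1.symm rfl] at this
    by_cases k2 : r.1 = fB i
    · have := hB r.2
      rwa [show (fB i, r.2) = r from Prod.ext k2.symm rfl] at this
    rw [ho r k1 k2, ho (nxt r) k1 k2, hφ.n]
    apply h.c
    · intro k; rw [hs, hφ.tri] at k; exact k1 k
    · intro k; rw [hs', hφ.tri] at k; exact k2 k
  · intro r
    simp only [Equiv.trans_apply]
    rw [h.t, hφ.t, ht]
  · intro j; rw [e0, e1]; exact hφ.X1 j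
  · intro j; rw [e0, e1]; exact hφ.X2 j
  · simp only [G, e0, e1]

theorem frame_A1 {s s' : Fin 8 × Fin 3} {σ φ : Equiv.Perm (Fin 8 × Fin 3)}
    (h : FlipG x y s s' σ)
    (hφ : Frame x φ) (i : Fin 3) (hs : s = φ (fA i, 1)) :
    ∃ φ', Frame y φ' ∧ G y φ' = G x φ := by
  have hts : x.1 s = φ (fB i, 1) := by rw [hs, hφ.t, tstd_A1]
  refine ⟨((w1 i).trans φ).trans σ, frame_of_w h hφ i ?_ ?_ (w1_t i) (w1_o i) ?_ ?_⟩
  · rw [hs, hφ.tri]
  · rw [hts, hφ.tri]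
  · have a := h.a1
    have b1 := h.b1
    have b2 := h.b2
    have b3 := h.b3
    have b4 := h.b4
    have a2 : σ (x.1 s) = y.1 s' := by rw [← h.t, h.a1]
    rw [hts, ← hφ.n] at b3
    rw [hts, ← hφ.p] at b4
    rw [hts] at a2
    rw [hs] at a
    rw [hs, ← hφ.n] at b1
    rw [hs, ← hφ.p] at b2
    change σ (φ (fA i, 2)) = _ at b1
    change σ (φ (fA i, 0)) = _ at b2
    change σ (φ (fB i, 2)) = _ at b3
    change σ (φ (fB i, 0)) = _ at b4
    obtain ⟨v1, v2, v3, v4, v5, v6⟩ := w1_v i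
    intro j
    fin_cases j
    · show σ (φ (w1 i (fA i, 1))) = nxt (σ (φ (w1 i (fA i, 0))))
      rw [v2, v1, b3, b2, nxt_nxt]
    · show σ (φ (w1 i (fA i, 2))) = nxt (σ (φ (w1 i (fA i, 1))))
      rw [v3, v2, a, b3, nxt_prv]
    · show σ (φ (w1 i (fA i, 0))) = nxt (σ (φ (w1 i (fA i, 2))))
      rw [v1, v3, b2, a]
  · have a := h.a1
    have b1 := h.b1
    have b2 := h.b2
    have b3 := h.b3
    have b4 := h.b4
    have a2 : σ (x.1 s) = y.1 s' := by rw [← h.t, h.a1]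
    rw [hts, ← hφ.n] at b3
    rw [hts, ← hφ.p] at b4
    rw [hts] at a2
    rw [hs] at a
    rw [hs, ← hφ.n] at b1
    rw [hs, ← hφ.p] at b2
    change σ (φ (fA i, 2)) = _ at b1
    change σ (φ (fA i, 0)) = _ at b2
    change σ (φ (fB i, 2)) = _ at b3
    change σ (φ (fB i, 0)) = _ at b4
    obtain ⟨v1, v2, v3, v4, v5, v6⟩ := w1_v i
    intro j
    fin_cases j
    · show σ (φ (w1 i (fB i, 1))) = nxt (σ (φ (w1 i (fB i, 0))))
      rw [v5, v4, b1, b4, nxt_nxt]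
    · show σ (φ (w1 i (fB i, 2))) = nxt (σ (φ (w1 i (fB i, 1))))
      rw [v6, v5, a2, b1, nxt_prv]
    · show σ (φ (w1 i (fB i, 0))) = nxt (σ (φ (w1 i (fB i, 2))))
      rw [v4, v6, b4, a2]

theorem frame_A2 {s s' : Fin 8 × Fin 3} {σ φ : Equiv.Perm (Fin 8 × Fin 3)}
    (h : FlipG x y s s' σ)
    (hφ : Frame x φ) (i : Fin 3) (hs : s = φ (fA i, 2)) :
    ∃ φ', Frame y φ' ∧ G y φ' = G x φ := by
  have hts : x.1 s = φ (fB i, 2) := by rw [hs, hφ.t, tstd_A2]
  refine ⟨((w2 i).trans φ).trans σ, frame_of_w h hφ i ?_ ?_ (w2_t i) (w2_o i) ?_ ?_⟩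
  · rw [hs, hφ.tri]
  · rw [hts, hφ.tri]
  · have a := h.a1
    have b1 := h.b1
    have b2 := h.b2
    have b3 := h.b3
    have b4 := h.b4
    have a2 : σ (x.1 s) = y.1 s' := by rw [← h.t, h.a1]
    rw [hts, ← hφ.n] at b3
    rw [hts, ← hφ.p] at b4
    rw [hts] at a2
    rw [hs] at a
    rw [hs, ← hφ.n] at b1
    rw [hs, ← hφ.p] at b2
    change σ (φ (fA i, 0)) = _ at b1
    change σ (φ (fA i, 1)) = _ at b2
    change σ (φ (fB i, 0)) = _ at b3
    change σ (φ (fB i, 1)) = _ at b4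
    obtain ⟨v1, v2, v3, v4, v5, v6⟩ := w2_v i
    intro j
    fin_cases j
    · show σ (φ (w2 i (fA i, 1))) = nxt (σ (φ (w2 i (fA i, 0))))
      rw [v2, v1, a2, b1, nxt_prv]
    · show σ (φ (w2 i (fA i, 2))) = nxt (σ (φ (w2 i (fA i, 1))))
      rw [v3, v2, b4, a2]
    · show σ (φ (w2 i (fA i, 0))) = nxt (σ (φ (w2 i (fA i, 2))))
      rw [v1, v3, b1, b4, nxt_nxt]
  · have a := h.a1
    have b1 := h.b1
    have b2 := h.b2
    have b3 := h.b3
    have b4 := h.b4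
    have a2 : σ (x.1 s) = y.1 s' := by rw [← h.t, h.a1]
    rw [hts, ← hφ.n] at b3
    rw [hts, ← hφ.p] at b4
    rw [hts] at a2
    rw [hs] at a
    rw [hs, ← hφ.n] at b1
    rw [hs, ← hφ.p] at b2
    change σ (φ (fA i, 0)) = _ at b1
    change σ (φ (fA i, 1)) = _ at b2
    change σ (φ (fB i, 0)) = _ at b3
    change σ (φ (fB i, 1)) = _ at b4
    obtain ⟨v1, v2, v3, v4, v5, v6⟩ := w2_v i
    intro j
    fin_cases j
    · show σ (φ (w2 i (fB i, 1))) = nxt (σ (φ (w2 i (fB i, 0))))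
      rw [v5, v4, a, b3, nxt_prv]
    · show σ (φ (w2 i (fB i, 2))) = nxt (σ (φ (w2 i (fB i, 1))))
      rw [v6, v5, b2, a]
    · show σ (φ (w2 i (fB i, 0))) = nxt (σ (φ (w2 i (fB i, 2))))
      rw [v4, v6, b3, b2, nxt_nxt]

theorem FlipG.frame {s s' : Fin 8 × Fin 3} {σ φ : Equiv.Perm (Fin 8 × Fin 3)}
    (hx : IsTri x.1 x.2) (hy : IsTri y.1 y.2) (h : FlipG x y s s' σ) (hφ : Frame x φ) :
    ∃ φ', Frame y φ' ∧ G y φ' = G x φ := by
  obtain ⟨i, hi⟩ := cases8 (φ.symm s)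
  have hsw := h.swap hx hy
  rcases hi with hi | hi | hi | hi | hi | hi | hi | hi
  · rw [Equiv.symm_apply_eq] at hi
    exact (noflip_D hx hy h hφ i hi).elim
  · rw [Equiv.symm_apply_eq] at hi
    exact (noflip_D' hx hy h hφ i hi).elim
  · rw [Equiv.symm_apply_eq] at hi
    exact (noflip_D hx hy hsw hφ i (by rw [hi, hφ.t, tstd_A0])).elim
  · rw [Equiv.symm_apply_eq] at hi
    exact frame_A1 h hφ i hi
  · rw [Equiv.symm_apply_eq] at hi
    exact frame_A2 h hφ i hi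
  · rw [Equiv.symm_apply_eq] at hi
    exact (noflip_D' hx hy hsw hφ i (by rw [hi, hφ.t, tstd_B0])).elim
  · rw [Equiv.symm_apply_eq] at hi
    exact frame_A1 hsw hφ i (by rw [hi, hφ.t, tstd_B1])
  · rw [Equiv.symm_apply_eq] at hi
    exact frame_A2 hsw hφ i (by rw [hi, hφ.t, tstd_B2])

/-- The set of the values of the invariant over all labellings. -/
def Gam (x : (Fin 8 × Fin 3 → Fin 8 × Fin 3) × (Fin 8 × Fin 3 → ℝ × ℝ)) : Set ℝ :=
  {g | ∃ φ, Frame x φ ∧ G x φ = g}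

theorem gam_flip (hx : IsTri x.1 x.2) (hy : IsTri y.1 y.2) (h : Flip x y) : Gam x = Gam y := by
  obtain ⟨s, s', σ, hG⟩ := h.toG
  apply Set.Subset.antisymm
  · rintro g ⟨φ, hφ, rfl⟩
    exact hG.frame hx hy hφ
  · rintro g ⟨φ, hφ, rfl⟩
    exact (hG.symm hx hy).frame hy hx hφ

theorem gam_iso (h : Iso x y) : Gam x = Gam y := by
  obtain ⟨ρ, c, hc, h1, h2, h3⟩ := h
  have ctri : ∀ φ : Equiv.Perm (Fin 8 × Fin 3), (∀ r, φ (nxt r) = nxt (φ r)) →
      ∀ f j, (φ (f, j)).1 = (φ (f, 0)).1 := by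
    intro φ hφ f j
    have k1 : (φ (f, 1)).1 = (φ (f, 0)).1 := by
      have : (φ (nxt (f, 0))).1 = (nxt (φ (f, 0))).1 := by rw [hφ]
      exact this
    have k2 : (φ (f, 2)).1 = (φ (f, 1)).1 := by
      have : (φ (nxt (f, 1))).1 = (nxt (φ (f, 1))).1 := by rw [hφ]
      exact this
    fin_cases j
    · rfl
    · exact k1
    · exact k2.trans k1
  have key : ∀ φ : Equiv.Perm (Fin 8 × Fin 3), (∀ r, φ (nxt r) = nxt (φ r)) → ∀ i j,
      det (y.2 (ρ (φ (0, i)))) (y.2 (ρ (φ (1, j)))) =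
        (c (φ (0, 0)).1 * c (φ (1, 0)).1) * det (x.2 (φ (0, i))) (x.2 (φ (1, j))) := by
    intro φ hφ i j
    rw [h3, h3, det_smul_left, det_smul_right, ctri φ hφ 0 i, ctri φ hφ 1 j]; ring
  have key' : ∀ φ : Equiv.Perm (Fin 8 × Fin 3), (∀ r, φ (nxt r) = nxt (φ r)) → ∀ i j,
      det (y.2 (ρ (φ (1, i)))) (y.2 (ρ (φ (0, j)))) =
        (c (φ (0, 0)).1 * c (φ (1, 0)).1) * det (x.2 (φ (1, i))) (x.2 (φ (0, j))) := by
    intro φ hφ i j
    rw [h3, h3, det_smul_left, det_smul_right, ctri φ hφ 1 i, ctri φ hφ 0 j]; ring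
  have iff1 : ∀ φ : Equiv.Perm (Fin 8 × Fin 3), Frame x φ ↔ Frame y (φ.trans ρ) := by
    intro φ
    constructor
    · intro hφ
      refine ⟨fun r => ?_, fun r => ?_, fun i => ?_, fun i => ?_⟩
      · simp only [Equiv.trans_apply]; rw [hφ.n, h1]
      · simp only [Equiv.trans_apply]; rw [h2, hφ.t]
      · simp only [Equiv.trans_apply]; rw [key φ hφ.n]
        exact mul_pos (mul_pos (hc _) (hc _)) (hφ.X1 i)
      · simp only [Equiv.trans_apply]; rw [key' φ hφ.n]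
        exact mul_pos (mul_pos (hc _) (hc _)) (hφ.X2 i)
    · intro hφ
      have hn : ∀ r, φ (nxt r) = nxt (φ r) := by
        intro r
        have := hφ.n r
        simp only [Equiv.trans_apply] at this
        rw [← h1] at this
        exact ρ.injective this
      refine ⟨hn, fun r => ?_, fun i => ?_, fun i => ?_⟩
      · have := hφ.t r
        simp only [Equiv.trans_apply] at this
        rw [h2] at this
        exact ρ.injective this
      · have := hφ.X1 i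
        simp only [Equiv.trans_apply] at this
        rw [key φ hn] at this
        exact pos_of_mul_pos_right this (mul_pos (hc _) (hc _)).le
      · have := hφ.X2 i
        simp only [Equiv.trans_apply] at this
        rw [key' φ hn] at this
        exact pos_of_mul_pos_right this (mul_pos (hc _) (hc _)).le
  have hG : ∀ φ : Equiv.Perm (Fin 8 × Fin 3), (∀ r, φ (nxt r) = nxt (φ r)) →
      G y (φ.trans ρ) = G x φ := by
    intro φ hφ
    simp only [G, Equiv.trans_apply]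
    rw [key φ hφ, key φ hφ, key φ hφ, key' φ hφ]
    have p1 := hc (φ (0, 0)).1
    have p2 := hc (φ (1, 0)).1
    rw [mul_mul_mul_comm, mul_mul_mul_comm _ (det _ _) _ (det _ _)]
    rw [mul_div_mul_left _ _ (by positivity)]
  ext g
  constructor
  · rintro ⟨φ, hφ, rfl⟩
    exact ⟨φ.trans ρ, (iff1 φ).1 hφ, hG φ hφ.n⟩
  · rintro ⟨φ, hφ, rfl⟩
    have e : φ = (φ.trans ρ.symm).trans ρ := by
      ext r <;> simp
    rw [e] at hφ ⊢
    have := (iff1 _).2 hφ
    exact ⟨_, this, (hG _ this.n).symm⟩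

theorem gam_finite (x : (Fin 8 × Fin 3 → Fin 8 × Fin 3) × (Fin 8 × Fin 3 → ℝ × ℝ)) :
    (Gam x).Finite := by
  apply (Set.finite_range (fun φ : Equiv.Perm (Fin 8 × Fin 3) => G x φ)).subset
  rintro g ⟨φ, -, rfl⟩
  exact ⟨φ, rfl⟩

theorem gam_act (A : Matrix.SpecialLinearGroup (Fin 2) ℝ) (x : TriSurf) :
    Gam (actS A x).1 = Gam x.1 := by
  have h : ∀ φ, Frame (actS A x).1 φ ↔ Frame x.1 φ := by
    intro φ
    constructor
    · rintro ⟨a, b, c, d⟩
      refine ⟨a, b, fun i => ?_, fun i => ?_⟩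
      · have := c i
        change 0 < det (lin A _) (lin A _) at this
        rwa [det_lin] at this
      · have := d i
        change 0 < det (lin A _) (lin A _) at this
        rwa [det_lin] at this
    · rintro ⟨a, b, c, d⟩
      refine ⟨a, b, fun i => ?_, fun i => ?_⟩
      · show 0 < det (lin A _) (lin A _)
        rw [det_lin]; exact c i
      · show 0 < det (lin A _) (lin A _)
        rw [det_lin]; exact d i
  have hG : ∀ φ, G (actS A x).1 φ = G x.1 φ := by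
    intro φ
    show det (lin A _) (lin A _) * det (lin A _) (lin A _) /
      (det (lin A _) (lin A _) * det (lin A _) (lin A _)) = _
    rw [det_lin, det_lin, det_lin, det_lin]; rfl
  ext g
  simp only [Gam, Set.mem_ofPred_eq, h, hG]

end Pool.Agent.Y316.DS
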